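import Pool.Agent.Y110.FJ.Stm

/-!
# Torsion-free subgroups
-/

set_option autoImplicit false

namespace Pool.Agent.Run7.h1.SR

/-- `1` is the only element of finite order. -/
def TorsionFree (G : Type) [Group G] : Prop := ∀ g : G, IsOfFinOrder g → g = 1

/-- The property `Iso` holds for all torsion-free subgroups of `G`. -/
def TfSub (Iso : ∀ (π : Type) [Group π], Prop) (G : Type) [Group G] : Prop :=
  ∀ π : Subgroup G, TorsionFree π → Iso π

theorem tf_sub {C Iso : ∀ (G : Type) [Group G], Prop} (hC : Pool.Agent.Y110.FJ.ClosedE C)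
    (hI : ∀ (π : Type) [Group π], C π → TorsionFree π → Iso π) {G : Type} [Group G] (h : C G) :
    TfSub Iso G :=
  fun π hπ => hI π (hC.base.of_injective π G π.subtype π.subtype_injective h) hπ

end Pool.Agent.Run7.h1.SR
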