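import Pool.Agent.Y110.FJ.Stm

/-!
# Poincaré duality groups
-/

set_option autoImplicit false

namespace Pool.Agent.Run7.h1.SR

/-- `G` is a Poincaré duality group of dimension `m + 1`: it is finitely presented, `ℤ` has a resolution
`P` by finitely generated projective `ℤG`-modules of length `m + 1`, the cohomology groups
`H^i(G; ℤG)`, `i < m + 1`, vanish, and `H^(m+1)(G; ℤG)` is isomorphic to `ℤ` as an abelian group. -/
def IsPDdim (m : ℕ) (G : Type) [Group G] : Prop :=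
  (∃ (k : ℕ) (R : Set (FreeGroup (Fin k))), R.Finite ∧ Nonempty (G ≃* PresentedGroup R)) ∧
  ∃ (P : ℕ → Type) (_ : ∀ i, AddCommGroup (P i))
      (_ : ∀ i, Module (MonoidAlgebra ℤ G) (P i))
      (d : ∀ i, P (i + 1) →ₗ[MonoidAlgebra ℤ G] P i) (ε : P 0 →+ ℤ),
      (∀ i, Module.Finite (MonoidAlgebra ℤ G) (P i)) ∧
      (∀ i, Module.Projective (MonoidAlgebra ℤ G) (P i)) ∧
      (∀ i, m + 1 < i → Subsingleton (P i)) ∧
      (∀ (g : G) (x : P 0), ε (MonoidAlgebra.of ℤ G g • x) = ε x) ∧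
      Function.Surjective ε ∧
      (∀ x : P 0, ε x = 0 ↔ x ∈ LinearMap.range (d 0)) ∧
      (∀ i, LinearMap.range (d (i + 1)) = LinearMap.ker (d i)) ∧
      (∀ f : P 0 →ₗ[MonoidAlgebra ℤ G] MonoidAlgebra ℤ G, f ∘ₗ d 0 = 0 → f = 0) ∧
      (∀ i < m, ∀ f : P (i + 1) →ₗ[MonoidAlgebra ℤ G] MonoidAlgebra ℤ G, f ∘ₗ d (i + 1) = 0 →
        ∃ g : P i →ₗ[MonoidAlgebra ℤ G] MonoidAlgebra ℤ G, f = g ∘ₗ d i) ∧
      ∃ φ : (P (m + 1) →ₗ[MonoidAlgebra ℤ G] MonoidAlgebra ℤ G) →+ ℤ, Function.Surjective φ ∧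
        ∀ f, φ f = 0 ↔ ∃ g : P m →ₗ[MonoidAlgebra ℤ G] MonoidAlgebra ℤ G, f = g ∘ₗ d m

/-- `G` is a Poincaré duality group (of some positive dimension). -/
def IsPD (G : Type) [Group G] : Prop := ∃ m : ℕ, IsPDdim m G

/-- The property `Iso` holds for all subgroups of `G` which are Poincaré duality groups. -/
def PDSub (Iso : ∀ (π : Type) [Group π], Prop) (G : Type) [Group G] : Prop :=
  ∀ π : Subgroup G, IsPD π → Iso π

theorem pd_sub {C Iso : ∀ (G : Type) [Group G], Prop} (hC : Pool.Agent.Y110.FJ.ClosedE C)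
    (hI : ∀ (π : Type) [Group π], C π → IsPD π → Iso π) {G : Type} [Group G] (h : C G) :
    PDSub Iso G :=
  fun π hπ => hI π (hC.base.of_injective π G π.subtype π.subtype_injective h) hπ

end Pool.Agent.Run7.h1.SR
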