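import Pool.Agent.Y110.FJ.Stm

/-!
# Groups of type FP and FF
-/

set_option autoImplicit false

namespace Pool.Agent.Run7.h1.SR

/-- `ℤ` has a resolution of finite length by finitely generated projective `ℤG`-modules. -/
def IsFP (G : Type) [Group G] : Prop :=
  ∃ (P : ℕ → Type) (_ : ∀ i, AddCommGroup (P i))
      (_ : ∀ i, Module (MonoidAlgebra ℤ G) (P i))
      (d : ∀ i, P (i + 1) →ₗ[MonoidAlgebra ℤ G] P i)
      (ε : P 0 →+ ℤ) (n : ℕ),
      (∀ i, Module.Finite (MonoidAlgebra ℤ G) (P i)) ∧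
      (∀ i, Module.Projective (MonoidAlgebra ℤ G) (P i)) ∧
      (∀ i, n < i → Subsingleton (P i)) ∧
      (∀ (g : G) (x : P 0), ε (MonoidAlgebra.of ℤ G g • x) = ε x) ∧
      Function.Surjective ε ∧
      (∀ x : P 0, ε x = 0 ↔ x ∈ LinearMap.range (d 0)) ∧
      (∀ i, LinearMap.range (d (i + 1)) = LinearMap.ker (d i))

/-- `ℤ` has a resolution of finite length by finitely generated free `ℤG`-modules. -/
def IsFF (G : Type) [Group G] : Prop :=
  ∃ (P : ℕ → Type) (_ : ∀ i, AddCommGroup (P i))
      (_ : ∀ i, Module (MonoidAlgebra ℤ G) (P i))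
      (d : ∀ i, P (i + 1) →ₗ[MonoidAlgebra ℤ G] P i)
      (ε : P 0 →+ ℤ) (n : ℕ),
      (∀ i, Module.Finite (MonoidAlgebra ℤ G) (P i)) ∧
      (∀ i, Module.Free (MonoidAlgebra ℤ G) (P i)) ∧
      (∀ i, n < i → Subsingleton (P i)) ∧
      (∀ (g : G) (x : P 0), ε (MonoidAlgebra.of ℤ G g • x) = ε x) ∧
      Function.Surjective ε ∧
      (∀ x : P 0, ε x = 0 ↔ x ∈ LinearMap.range (d 0)) ∧
      (∀ i, LinearMap.range (d (i + 1)) = LinearMap.ker (d i))

/-- Serre's question has a positive answer for `G`: if `G` is of type FP then it is of type FF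
(the assertion of the frozen statement `S03139` for the group `G`). -/
def SerreFor (G : Type) [Group G] : Prop := IsFP G → IsFF G

/-- Serre's question has a positive answer for all subgroups of the groups in `C` -/
theorem serre_sub {C : ∀ (G : Type) [Group G], Prop} (hC : Pool.Agent.Y110.FJ.ClosedE C)
    (hS : ∀ (G : Type) [Group G], C G → SerreFor G) {G : Type} [Group G] (h : C G)
    (H : Subgroup G) : SerreFor H :=
  hS H (hC.base.of_injective H G H.subtype H.subtype_injective h)

end Pool.Agent.Run7.h1.SR
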